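import Pool.Agent.Y223.G.Stm5

/-!
# Project G: the uniformizer of the base at a point of a smooth product
-/

set_option autoImplicit false

namespace Pool.Agent.Y901.G

open IsLocalRing Pool.Agent.W418.LU2 Pool.Agent.Y223.G

theorem ft_iSup {O K : Type} [CommRing O] [Field K] [Algebra O K] {Ω : Type} [Finite Ω]
    (A : Ω → Subalgebra O K) (h : ∀ ω, Algebra.FiniteType O (A ω)) :
    Algebra.FiniteType O (⨆ ω, A ω : Subalgebra O K) := by
  rw [← Subalgebra.fg_iff_finiteType]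
  choose s hs using fun ω => (Subalgebra.fg_iff_finiteType (A ω)).2 (h ω)
  refine Subalgebra.fg_def.2 ⟨⋃ ω, (s ω : Set K), Set.finite_iUnion fun ω => (s ω).finite_toSet, ?_⟩
  rw [Algebra.adjoin_iUnion]
  exact iSup_congr hs

theorem t_BTAM : S_COORD → S_ETF → S_IND2 → S_BTAM := by
  intro hC hE hI O K _ _ _ _ _ hinj Ω _ A hft hld hreg 𝔓 h𝔓 h𝔓0 hsm Q _ hQ π hπ hπ2 hcon
  have h1 : ∀ ω, ∃ (r : ℕ) (u : Fin r → A ω),
      EtAt (A ω) (Q.comap (Subalgebra.inclusion (le_iSup A ω) : A ω →+* _)) u := by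
    intro ω
    have hp : (Q.comap (Subalgebra.inclusion (le_iSup A ω) : A ω →+* _)).IsPrime :=
      Ideal.comap_isPrime _ _
    have hq : (Q.comap (Subalgebra.inclusion (le_iSup A ω) : A ω →+* _)).comap
        (algebraMap O (A ω)) = 𝔓 := by
      rw [← hQ, Ideal.comap_comap]
      rfl
    obtain ⟨r, u, h, _⟩ := hC O K (A ω) (hft ω) _ (hsm ω _ hq)
    exact ⟨r, u, h⟩
  choose r u hu using h1
  have h2 := hE O K hinj Ω A hld Q (fun ω => Fin (r ω)) u hu
  have h3 := hI O K _ (ft_iSup A hft) hreg Q ((ω : Ω) × Fin (r ω)) Empty _ (fun e => e.elim)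
    (fun e => e.elim) h2 𝔓 h𝔓 h𝔓0 π hπ hπ2 hQ (fun e => e.elim)
  have h4 := h3.2 (fun _ => 1) (by
    rw [Fintype.sum_option]
    simp only [one_mul, Option.elim_none, Finset.univ_eq_empty, Finset.sum_empty, add_zero]
    exact hcon) none
  exact (Ideal.ne_top_iff_one _).1 (maximalIdeal.isMaximal _).ne_top h4

end Pool.Agent.Y901.G
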