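import Mathlib

/-!
# Regular local rings: polynomial rings and quotients by one element
-/

set_option autoImplicit false

namespace Pool.Agent.Y901.G

open IsLocalRing

section transfer

variable {R S : Type*} [CommRing R] [CommRing S]

theorem transfer (e : R ≃+* S) (p : Ideal S) [p.IsPrime] (q : Ideal R) [q.IsPrime]
    (h : q = p.comap (e : R →+* S)) (hreg : IsRegularLocalRing (Localization.AtPrime q)) :
    IsRegularLocalRing (Localization.AtPrime p) := by
  subst h
  have hreg' : IsRegularLocalRing (Localization.AtPrime (p.comap e)) := hreg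
  exact IsRegularLocalRing.of_ringEquiv <| IsLocalization.ringEquivOfRingEquiv
    (Localization.AtPrime (p.comap e)) (Localization.AtPrime p) e (e.map_primeCompl_comap_eq p)

theorem reg_congr {p q : Ideal R} [p.IsPrime] [q.IsPrime] (h : p = q)
    (hq : IsRegularLocalRing (Localization.AtPrime q)) :
    IsRegularLocalRing (Localization.AtPrime p) := by
  subst h
  exact hq

end transfer

open Polynomial in
/-- Localizations of a polynomial ring over a point whose local ring is regular. -/
theorem poly_loc (R : Type*) [CommRing R] (p : Ideal R[X]) [p.IsPrime]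
    (h : IsRegularLocalRing (Localization.AtPrime (p.comap C))) :
    IsRegularLocalRing (Localization.AtPrime p) := by
  let q := p.comap C
  let S := (Localization.AtPrime q)[X]
  let pc := Submonoid.map Polynomial.C.toMonoidHom q.primeCompl
  let : Algebra R[X] S := algebra R (Localization.AtPrime q)
  have : IsLocalization pc S := Polynomial.isLocalization _ _
  let pS := p.map (algebraMap R[X] S)
  have disj : Disjoint (pc : Set R[X]) (p : Set R[X]) := by
    simpa [pc, q] using! Set.disjoint_image_left.mpr
      (Set.disjoint_compl_left_iff_subset.mpr (fun _ a ↦ a))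
  have : pS.IsPrime := IsLocalization.isPrime_of_isPrime_disjoint pc _ _ ‹_› disj
  have : IsLocalization.AtPrime (Localization.AtPrime pS) p := by
    convert IsLocalization.isLocalization_isLocalization_atPrime_isLocalization pc
      (Localization.AtPrime pS) pS
    exact (IsLocalization.under_map_of_isPrime_disjoint pc _ ‹_› disj).symm
  have : IsRegularLocalRing (Localization.AtPrime q) := h
  have eq : Ideal.comap C pS = maximalIdeal (Localization.AtPrime q) := by
    rw [← IsLocalization.map_under q.primeCompl _ (Ideal.comap C pS),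
      ← IsLocalization.map_under q.primeCompl _ (maximalIdeal (Localization.AtPrime q))]
    simp only [Ideal.comap_comap, S, pS]
    rw [← Polynomial.algebraMap_eq (R := Localization.AtPrime q),
      ← IsScalarTower.algebraMap_eq R (Localization.AtPrime q) (Localization.AtPrime q)[X],
      IsScalarTower.algebraMap_eq R R[X] (Localization.AtPrime q)[X], ← Ideal.comap_comap,
      ← Ideal.under_def R[X], IsLocalization.under_map_of_isPrime_disjoint pc _ ‹_› disj]
    simp [q, IsLocalization.AtPrime.under_maximalIdeal (Localization.AtPrime q) q]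
  have := isRegularLocalRing_localization_atPrime_of_comap_eq_maximalIdeal _ pS eq
  exact IsRegularLocalRing.of_ringEquiv (R := Localization.AtPrime pS) (IsLocalization.algEquiv p.primeCompl
    (Localization.AtPrime pS) (Localization.AtPrime p)).toRingEquiv

/-- Localizations of a polynomial ring over a point whose local ring is regular. -/
theorem mv_loc (R : Type*) [CommRing R] {ι : Type*} [Finite ι] (p : Ideal (MvPolynomial ι R))
    [p.IsPrime] (h : IsRegularLocalRing (Localization.AtPrime (p.comap MvPolynomial.C))) :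
    IsRegularLocalRing (Localization.AtPrime p) := by
  induction ι using Finite.induction_empty_option with
  | @of_equiv α β e H =>
    let E : MvPolynomial α R ≃+* MvPolynomial β R := (MvPolynomial.renameEquiv R e).toRingEquiv
    have hq : (p.comap (E : MvPolynomial α R →+* MvPolynomial β R)).IsPrime :=
      Ideal.comap_isPrime _ _
    refine transfer E p _ rfl (H _ ?_)
    have h1 : (p.comap (E : MvPolynomial α R →+* MvPolynomial β R)).comap MvPolynomial.C =
        p.comap MvPolynomial.C := by
      rw [Ideal.comap_comap]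
      congr 1
      ext r
      simp [E]
    exact reg_congr h1 h
  | h_empty =>
    let E : R ≃+* MvPolynomial PEmpty R := (MvPolynomial.isEmptyRingEquiv R _).symm
    refine transfer E p _ ?_ h
    rfl
  | @h_option α _ H =>
    let E : Polynomial (MvPolynomial α R) ≃+* MvPolynomial (Option α) R :=
      (MvPolynomial.optionEquivLeft R α).toRingEquiv.symm
    have hq : (p.comap (E : Polynomial (MvPolynomial α R) →+* MvPolynomial (Option α) R)).IsPrime :=
      Ideal.comap_isPrime _ _
    refine transfer E p _ rfl (poly_loc _ _ (H _ ?_))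
    have h1 : ((p.comap (E : Polynomial (MvPolynomial α R) →+*
        MvPolynomial (Option α) R)).comap Polynomial.C).comap MvPolynomial.C =
        p.comap MvPolynomial.C := by
      rw [Ideal.comap_comap, Ideal.comap_comap]
      congr 1
      ext r
      simp [E]
    exact reg_congr h1 h

/-- A local domain is regular if its quotient by a nonzero element of the maximal ideal is. -/
theorem of_quot (S : Type*) [CommRing S] [IsDomain S] [IsLocalRing S] [IsNoetherianRing S] (t : S)
    (ht : t ∈ maximalIdeal S) (h0 : t ≠ 0) (h : IsRegularLocalRing (S ⧸ Ideal.span {t})) :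
    IsRegularLocalRing S := by
  classical
  apply IsRegularLocalRing.of_spanFinrank_maximalIdeal_le
  have h1 := ringKrullDim_quotient_succ_le_of_nonZeroDivisor (mem_nonZeroDivisors_of_ne_zero h0)
  refine le_trans ?_ h1
  rw [← (isRegularLocalRing_iff _).1 h]
  have hfg : (maximalIdeal (S ⧸ Ideal.span {t})).FG :=
    (maximalIdeal (S ⧸ Ideal.span {t})).fg_of_isNoetherianRing
  obtain ⟨T, hT, hT2⟩ := Submodule.FG.exists_span_finset_card_eq_spanFinrank hfg
  choose g hg using fun y : S ⧸ Ideal.span {t} => Ideal.Quotient.mk_surjective y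
  have h2 : maximalIdeal S = Ideal.span ((insert t (T.image g) : Finset S) : Set S) := by
    apply le_antisymm
    · intro y hy
      have h3 : Ideal.Quotient.mk (Ideal.span {t}) y ∈ maximalIdeal (S ⧸ Ideal.span {t}) := by
        rw [mem_maximalIdeal, mem_nonunits_iff]
        intro hu
        obtain ⟨z, hz⟩ := isUnit_iff_exists_inv.1 hu
        obtain ⟨w, rfl⟩ := Ideal.Quotient.mk_surjective z
        rw [← map_mul, ← map_one (Ideal.Quotient.mk (Ideal.span {t})), Ideal.Quotient.eq] at hz
        have h4 : y * w - 1 ∈ maximalIdeal S :=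
          ((Ideal.span_singleton_le_iff_mem _).2 ht) hz
        have h5 : y * w ∈ maximalIdeal S := Ideal.mul_mem_right _ _ hy
        have h6 := Ideal.sub_mem _ h5 h4
        rw [sub_sub_cancel] at h6
        exact (Ideal.ne_top_iff_one _).1 (maximalIdeal.isMaximal S).ne_top h6
      have h4 : maximalIdeal (S ⧸ Ideal.span {t}) =
          (Ideal.span ((T.image g : Finset S) : Set S)).map (Ideal.Quotient.mk _) := by
        rw [Ideal.map_span, ← hT2]
        congr 1
        ext z
        simp only [Finset.coe_image, Set.mem_image, Finset.mem_coe]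
        constructor
        · intro hz
          exact ⟨g z, ⟨z, hz, rfl⟩, hg z⟩
        · rintro ⟨_, ⟨z', hz', rfl⟩, rfl⟩
          rw [hg]
          exact hz'
      rw [h4, ← Ideal.mem_comap, Ideal.comap_map_of_surjective _ Ideal.Quotient.mk_surjective,
        ← RingHom.ker_eq_comap_bot, Ideal.mk_ker] at h3
      rw [Finset.coe_insert, Ideal.span_insert, sup_comm]
      exact h3
    · rw [Ideal.span_le]
      intro y hy
      rw [Finset.mem_coe, Finset.mem_insert, Finset.mem_image] at hy
      rcases hy with rfl | ⟨z, hz, rfl⟩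
      · exact ht
      · have h3 : z ∈ maximalIdeal (S ⧸ Ideal.span {t}) := by
          rw [← hT2]
          exact Submodule.subset_span hz
        change g z ∈ maximalIdeal S
        rw [mem_maximalIdeal, mem_nonunits_iff] at h3 ⊢
        intro hu
        apply h3
        rw [← hg z]
        exact hu.map _
  have h3 : (maximalIdeal S).spanFinrank ≤ (maximalIdeal (S ⧸ Ideal.span {t})).spanFinrank + 1 := by
    rw [h2]
    refine (Submodule.spanFinrank_span_le_ncard_of_finite (Finset.finite_toSet _)).trans ?_
    rw [Set.ncard_coe_finset]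
    refine (Finset.card_insert_le _ _).trans ?_
    rw [← hT]
    exact Nat.add_le_add_right Finset.card_image_le 1
  exact_mod_cast h3

/-- Passage to the quotient by an element of the prime. -/
theorem glue (R : Type*) [CommRing R] [IsDomain R] [IsNoetherianRing R] (t : R) (ht0 : t ≠ 0)
    (Q : Ideal R) [Q.IsPrime] (ht : t ∈ Q)
    (h : ∀ (Q' : Ideal (R ⧸ Ideal.span {t})) [Q'.IsPrime],
      (∀ r, Ideal.Quotient.mk (Ideal.span {t}) r ∈ Q' ↔ r ∈ Q) →
      IsRegularLocalRing (Localization.AtPrime Q')) :
    IsRegularLocalRing (Localization.AtPrime Q) := by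
  let I : Ideal R := Ideal.span {t}
  have hI : I ≤ Q := (Ideal.span_singleton_le_iff_mem _).2 ht
  let S := Localization.AtPrime Q
  have hSN : IsNoetherianRing S := IsLocalization.isNoetherianRing Q.primeCompl S ‹_›
  have hSD : IsDomain S := IsLocalization.isDomain_localization Q.primeCompl_le_nonZeroDivisors
  have hinj' : Function.Injective (algebraMap R S) :=
    IsLocalization.injective S Q.primeCompl_le_nonZeroDivisors
  apply of_quot S (algebraMap R S t)
  · exact (IsLocalization.AtPrime.to_map_mem_maximal_iff S Q _).2 ht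
  · intro h
    exact ht0 (hinj' (by rw [h, map_zero]))
  have hmap : Ideal.span {algebraMap R S t} = I.map (algebraMap R S) := by
    rw [Ideal.map_span, Set.image_singleton]
  rw [hmap]
  -- the prime of the quotient
  have hker : RingHom.ker (Ideal.Quotient.mk I) ≤ Q := by
    rw [Ideal.mk_ker]
    exact hI
  have hQp : (Q.map (Ideal.Quotient.mk I)).IsPrime :=
    Ideal.map_isPrime_of_surjective Ideal.Quotient.mk_surjective hker
  have hmem : ∀ r : R, Ideal.Quotient.mk I r ∈ Q.map (Ideal.Quotient.mk I) ↔ r ∈ Q := by
    intro r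
    rw [← Ideal.mem_comap, Ideal.comap_map_of_surjective _ Ideal.Quotient.mk_surjective,
      ← RingHom.ker_eq_comap_bot, sup_eq_left.2 hker]
  have h1 : IsRegularLocalRing (Localization.AtPrime (Q.map (Ideal.Quotient.mk I))) := h _ hmem
  have h2 : Algebra.algebraMapSubmonoid (R ⧸ I) Q.primeCompl =
      (Q.map (Ideal.Quotient.mk I)).primeCompl := by
    ext y
    constructor
    · rintro ⟨r, hr, rfl⟩
      exact fun h => hr ((hmem r).1 h)
    · intro hy
      obtain ⟨r, rfl⟩ := Ideal.Quotient.mk_surjective y
      exact ⟨r, fun h => hy ((hmem r).2 h), rfl⟩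
  have h3 : IsLocalization (Algebra.algebraMapSubmonoid (R ⧸ I) Q.primeCompl)
      (S ⧸ I.map (algebraMap R S)) := inferInstance
  rw [h2] at h3
  exact IsRegularLocalRing.of_ringEquiv (R := Localization.AtPrime (Q.map (Ideal.Quotient.mk I)))
    (IsLocalization.algEquiv (Q.map (Ideal.Quotient.mk I)).primeCompl
      (Localization.AtPrime (Q.map (Ideal.Quotient.mk I)))
      (S ⧸ I.map (algebraMap R S))).toRingEquiv

/-- Quotients of polynomial rings. -/
theorem of_surj (B R : Type*) [CommRing B] [IsLocalRing B] [CommRing R] (J : Ideal B)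
    (hJ : IsRegularLocalRing (B ⧸ J)) {ι : Type*} [Finite ι] (ψ : MvPolynomial ι B →+* R)
    (hψ : Function.Surjective ψ)
    (hk : RingHom.ker ψ = J.map (MvPolynomial.C : B →+* MvPolynomial ι B))
    (Q : Ideal R) [Q.IsPrime] (hQ : ∀ b ∈ maximalIdeal B, ψ (MvPolynomial.C b) ∈ Q) :
    IsRegularLocalRing (Localization.AtPrime Q) := by
  have hs : Function.Surjective (MvPolynomial.map (σ := ι) (Ideal.Quotient.mk J)) :=
    MvPolynomial.map_surjective _ Ideal.Quotient.mk_surjective
  have hk2 : RingHom.ker (MvPolynomial.map (σ := ι) (Ideal.Quotient.mk J)) = RingHom.ker ψ := by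
    rw [hk, MvPolynomial.ker_map, Ideal.mk_ker]
  let E : MvPolynomial ι (B ⧸ J) ≃+* R :=
    (RingHom.quotientKerEquivOfSurjective hs).symm.trans
      ((Ideal.quotEquivOfEq hk2).trans (RingHom.quotientKerEquivOfSurjective hψ))
  have hE : ∀ b, E (MvPolynomial.C (Ideal.Quotient.mk J b)) = ψ (MvPolynomial.C b) := by
    intro b
    have h1 : (MvPolynomial.C (Ideal.Quotient.mk J b) : MvPolynomial ι (B ⧸ J)) =
        RingHom.quotientKerEquivOfSurjective hs (Ideal.Quotient.mk _ (MvPolynomial.C b)) := by
      rw [RingHom.quotientKerEquivOfSurjective_apply_mk, MvPolynomial.map_C]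
    rw [h1, RingEquiv.trans_apply, RingEquiv.trans_apply, RingEquiv.symm_apply_apply,
      Ideal.quotEquivOfEq_mk, RingHom.quotientKerEquivOfSurjective_apply_mk]
  have hq : (Q.comap (E : MvPolynomial ι (B ⧸ J) →+* R)).IsPrime := Ideal.comap_isPrime _ _
  refine transfer E Q _ rfl (mv_loc _ _ ?_)
  have hq' : ((Q.comap (E : MvPolynomial ι (B ⧸ J) →+* R)).comap MvPolynomial.C).IsPrime :=
    Ideal.comap_isPrime _ _
  have h1 : maximalIdeal (B ⧸ J) =
      (Q.comap (E : MvPolynomial ι (B ⧸ J) →+* R)).comap MvPolynomial.C := by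
    apply (maximalIdeal.isMaximal _).eq_of_le hq'.ne_top
    intro y hy
    obtain ⟨b, rfl⟩ := Ideal.Quotient.mk_surjective y
    have h2 : b ∈ maximalIdeal B := by
      rw [mem_maximalIdeal, mem_nonunits_iff] at hy ⊢
      exact fun h => hy (h.map _)
    rw [Ideal.mem_comap, Ideal.mem_comap]
    have h3 := hQ b h2
    rw [← hE b] at h3
    exact h3
  refine reg_congr h1.symm ?_
  let e : (B ⧸ J) ≃ₐ[B ⧸ J] (Localization.AtPrime (maximalIdeal (B ⧸ J))) :=
    IsLocalization.atUnits _ (maximalIdeal (B ⧸ J)).primeCompl (fun x ↦ by simpa using! fun a ↦ a)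
  exact IsRegularLocalRing.of_ringEquiv (R := B ⧸ J) e.toRingEquiv

/-- The two steps together. -/
theorem both (B R : Type*) [CommRing B] [IsLocalRing B] [CommRing R] [IsDomain R]
    [IsNoetherianRing R] (t : R) (ht0 : t ≠ 0) (Q : Ideal R) [Q.IsPrime] (ht : t ∈ Q)
    (J : Ideal B) (hJ : IsRegularLocalRing (B ⧸ J)) {ι : Type*} [Finite ι]
    (φ : MvPolynomial ι B →+* R) (h1 : ∀ r, ∃ g s, r = φ g + t * s)
    (h2 : ∀ g s, φ g = t * s → g ∈ J.map (MvPolynomial.C : B →+* MvPolynomial ι B))
    (h3 : ∀ b ∈ J, ∃ s, φ (MvPolynomial.C b) = t * s)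
    (hQ : ∀ b ∈ maximalIdeal B, φ (MvPolynomial.C b) ∈ Q) :
    IsRegularLocalRing (Localization.AtPrime Q) := by
  refine glue R t ht0 Q ht fun Q' _ hQ' => ?_
  refine of_surj B (R ⧸ Ideal.span {t}) J hJ ((Ideal.Quotient.mk (Ideal.span {t})).comp φ)
    ?_ ?_ Q' fun b hb => ?_
  · intro y
    obtain ⟨f, rfl⟩ := Ideal.Quotient.mk_surjective y
    obtain ⟨g, r, e⟩ := h1 f
    refine ⟨g, ?_⟩
    rw [RingHom.comp_apply, e, eq_comm, Ideal.Quotient.eq, add_sub_cancel_left]
    exact Ideal.mul_mem_right _ _ (Ideal.mem_span_singleton_self _)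
  · apply le_antisymm
    · intro g hg
      rw [RingHom.mem_ker, RingHom.comp_apply, Ideal.Quotient.eq_zero_iff_mem,
        Ideal.mem_span_singleton] at hg
      obtain ⟨s, hs⟩ := hg
      exact h2 g s hs
    · rw [Ideal.map_le_iff_le_comap]
      intro b hb
      rw [Ideal.mem_comap, RingHom.mem_ker, RingHom.comp_apply, Ideal.Quotient.eq_zero_iff_mem,
        Ideal.mem_span_singleton]
      obtain ⟨s, hs⟩ := h3 b hb
      exact ⟨s, hs⟩
  · rw [RingHom.comp_apply]
    exact (hQ' _).2 (hQ b hb)

end Pool.Agent.Y901.G
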