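import Pool.Agent.Y901.G.RegLoc
import Pool.Agent.Y223.G.Stm2
import Pool.Agent.Y223.G.Base
import Pool.Agent.Y484.G.Wqr

/-!
# Project G: the extended Rees algebra of a weighted regular centre is regular over the centre
-/

set_option autoImplicit false

namespace Pool.Agent.Y901.G

open IsLocalRing Pool.Agent.W418.LU2 Pool.Agent.Y223.G

section coef

variable {B K : Type} [CommRing B] [Field K] [Algebra B K] {ι : Type} [Fintype ι] (x : ι → B)
  (a : ι → ℕ)

/-- weighted ideals -/
def W (n : ℤ) : Ideal B :=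
  Ideal.span {y : B | ∃ m : ι →₀ ℕ, n ≤ ((∑ i, a i * m i : ℕ) : ℤ) ∧ y = ∏ i, x i ^ m i}

theorem W_mul {n m : ℤ} {y z : B} (hy : y ∈ W x a n) (hz : z ∈ W x a m) :
    y * z ∈ W x a (n + m) := by
  unfold W at hy hz
  induction hy using Submodule.span_induction with
  | mem y hy =>
    obtain ⟨m1, h1, rfl⟩ := hy
    induction hz using Submodule.span_induction with
    | mem z hz =>
      obtain ⟨m2, h2, rfl⟩ := hz
      refine Ideal.subset_span ⟨m1 + m2, ?_, ?_⟩
      · have h3 : ∑ i, a i * (m1 + m2) i = ∑ i, a i * m1 i + ∑ i, a i * m2 i := by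
          rw [← Finset.sum_add_distrib]
          refine Finset.sum_congr rfl fun i _ => ?_
          rw [Finsupp.add_apply, mul_add]
        rw [h3]
        push_cast at h1 h2 ⊢
        linarith
      · rw [← Finset.prod_mul_distrib]
        refine Finset.prod_congr rfl fun i _ => ?_
        rw [Finsupp.add_apply, pow_add]
    | zero =>
      rw [mul_zero]
      exact Ideal.zero_mem _
    | add z z' _ _ h h' =>
      rw [mul_add]
      exact Ideal.add_mem _ h h'
    | smul b z _ h =>
      rw [smul_eq_mul, mul_left_comm]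
      exact Ideal.mul_mem_left _ _ h
  | zero =>
    rw [zero_mul]
    exact Ideal.zero_mem _
  | add z z' _ _ h h' =>
    rw [add_mul]
    exact Ideal.add_mem _ h h'
  | smul b z _ h =>
    rw [smul_eq_mul, mul_assoc]
    exact Ideal.mul_mem_left _ _ h

theorem W_one {n : ℤ} (hn : n ≤ 0) (b : B) : b ∈ W x a n := by
  have h1 : (1 : B) ∈ W x a n := by
    refine Ideal.subset_span ⟨0, ?_, ?_⟩
    · simpa using hn
    · simp
  have h2 := Ideal.mul_mem_left _ b h1
  rwa [mul_one] at h2

theorem W_x (j : ι) : x j ∈ W x a (a j) := by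
  classical
  refine Ideal.subset_span ⟨Finsupp.single j 1, ?_, ?_⟩
  · rw [Finset.sum_eq_single j]
    · rw [Finsupp.single_eq_same, mul_one]
    · intro i _ hi
      rw [Finsupp.single_eq_of_ne hi, mul_zero]
    · intro h
      exact absurd (Finset.mem_univ _) h
  · rw [Finset.prod_eq_single j]
    · rw [Finsupp.single_eq_same, pow_one]
    · intro i _ hi
      rw [Finsupp.single_eq_of_ne hi, pow_zero]
    · intro h
      exact absurd (Finset.mem_univ _) h

/-- the images of the weighted ideals -/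
noncomputable def WK (K : Type) [Field K] [Algebra B K] (n : ℤ) : Submodule B K :=
  Submodule.map (Algebra.linearMap B K) (W x a n : Submodule B B)

theorem mem_WK {n : ℤ} {y : K} : y ∈ WK x a K n ↔ ∃ b ∈ W x a n, algebraMap B K b = y := Iff.rfl

/-- the extended Rees algebra -/
noncomputable def RE (K : Type) [Field K] [Algebra B K] : Subalgebra B (LP K) :=
  Algebra.adjoin B ({hm (-1) 1} ∪ Set.range fun j => hm (a j) (algebraMap B K (x j)))

theorem coef {f : LP K} (hf : f ∈ RE x a K) : ∀ n : ℤ, f.coeff n ∈ WK x a K n := by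
  unfold RE at hf
  induction hf using Algebra.adjoin_induction with
  | mem f hf =>
    intro n
    rcases hf with hf | ⟨j, rfl⟩
    · rw [Set.mem_singleton_iff] at hf
      rw [hf, coeff_hm]
      split_ifs with h
      · exact ⟨1, W_one x a (by omega) 1, map_one (algebraMap B K)⟩
      · exact Submodule.zero_mem _
    · change (hm (a j : ℤ) (algebraMap B K (x j))).coeff n ∈ _
      rw [coeff_hm]
      split_ifs with h
      · rw [← h]
        exact ⟨x j, W_x x a j, rfl⟩
      · exact Submodule.zero_mem _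
  | algebraMap r =>
    intro n
    rw [algebraMap_LP, coeff_hm]
    split_ifs with h
    · exact ⟨r, W_one x a (by omega) r, rfl⟩
    · exact Submodule.zero_mem _
  | add f g _ _ hf hg =>
    intro n
    rw [AddMonoidAlgebra.coeff_add, Finsupp.add_apply]
    exact Submodule.add_mem _ (hf n) (hg n)
  | mul f g _ _ hf hg =>
    intro n
    have h1 : f * g = ∑ d ∈ f.coeff.support, hm d (f.coeff d) * g := by
      rw [← Finset.sum_mul, ← eq_sum_hm]
    rw [h1, AddMonoidAlgebra.coeff_sum, Finsupp.finsetSum_apply]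
    refine Submodule.sum_mem _ fun d _ => ?_
    rw [coeff_hm_mul]
    obtain ⟨b, hb, hb'⟩ := hf d
    obtain ⟨c, hc, hc'⟩ := hg (n - d)
    refine ⟨b * c, ?_, ?_⟩
    · have h2 := W_mul x a hb hc
      rwa [add_sub_cancel] at h2
    · rw [← hb', ← hc']
      exact map_mul (algebraMap B K) b c

end coef

section main

variable {B K : Type} [CommRing B] [Field K] [Algebra B K] {c : ℕ} (x : Fin c → B)
  (a : Fin c → ℕ)

/-- the map from the polynomial ring -/
noncomputable def gm (K : Type) [Field K] [Algebra B K] : MvPolynomial (Fin c) B →ₐ[B] LP K :=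
  gmap B (fun i => (a i : ℤ)) (fun i => algebraMap B K (x i))

theorem gm_eq (g : MvPolynomial (Fin c) B) : gm x a K g = ∑ m ∈ g.support,
    hm ((∑ i, a i * m i : ℕ) : ℤ) (algebraMap B K (g.coeff m * ∏ i, x i ^ m i)) := by
  unfold gm gmap
  rw [MvPolynomial.aeval_def, MvPolynomial.eval₂_eq']
  refine Finset.sum_congr rfl fun m _ => ?_
  simp_rw [hm_pow]
  rw [hm_prod, algebraMap_LP, hm_mul, zero_add, map_mul, map_prod]
  simp_rw [map_pow]
  congr 1
  push_cast
  exact Finset.sum_congr rfl fun i _ => mul_comm _ _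

theorem gm_mem (g : MvPolynomial (Fin c) B) : gm x a K g ∈ RE x a K := by
  have h1 : (gm x a K).range ≤ RE x a K := by
    unfold gm gmap
    rw [← Algebra.adjoin_range_eq_range_aeval]
    exact Algebra.adjoin_mono Set.subset_union_right
  exact h1 ⟨g, rfl⟩

theorem t_mem : (hm (-1) 1 : LP K) ∈ RE x a K := Algebra.subset_adjoin (Or.inl rfl)

theorem gm_surj {f : LP K} (hf : f ∈ RE x a K) :
    ∃ g : MvPolynomial (Fin c) B, ∃ r ∈ RE x a K, f = gm x a K g + hm (-1) 1 * r := by
  unfold RE at hf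
  induction hf using Algebra.adjoin_induction with
  | mem f hf =>
    rcases hf with hf | ⟨j, rfl⟩
    · rw [Set.mem_singleton_iff] at hf
      exact ⟨0, 1, Subalgebra.one_mem _, by rw [map_zero, zero_add, mul_one, hf]⟩
    · refine ⟨MvPolynomial.X j, 0, Subalgebra.zero_mem _, ?_⟩
      rw [mul_zero, add_zero]
      unfold gm
      rw [gmap_X]
  | algebraMap r =>
    refine ⟨MvPolynomial.C r, 0, Subalgebra.zero_mem _, ?_⟩
    rw [mul_zero, add_zero]
    exact ((gm x a K).commutes r).symm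
  | add f g hf0 hg0 hf hg =>
    obtain ⟨g1, r1, h1, e1⟩ := hf
    obtain ⟨g2, r2, h2, e2⟩ := hg
    refine ⟨g1 + g2, r1 + r2, Subalgebra.add_mem _ h1 h2, ?_⟩
    rw [map_add, e1, e2]
    ring
  | mul f g hf0 hg0 hf hg =>
    obtain ⟨g1, r1, h1, e1⟩ := hf
    obtain ⟨g2, r2, h2, e2⟩ := hg
    refine ⟨g1 * g2, r1 * g + gm x a K g1 * r2, Subalgebra.add_mem _
      (Subalgebra.mul_mem _ h1 hg0) (Subalgebra.mul_mem _ (gm_mem x a g1) h2), ?_⟩
    rw [map_mul, e1]
    conv_lhs => rw [add_mul]
    rw [mul_add, mul_assoc]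
    have e3 : gm x a K g1 * g = gm x a K g1 * (gm x a K g2 + hm (-1) 1 * r2) := by rw [← e2]
    rw [e3]
    ring

theorem ker_le [IsRegularLocalRing B] (hinj : Function.Injective (algebraMap B K)) (hx : Ind x)
    (ha : ∀ j, 0 < a j) {g : MvPolynomial (Fin c) B} {r : LP K} (hr : r ∈ RE x a K)
    (h : gm x a K g = hm (-1) 1 * r) :
    g ∈ (Ideal.span (Set.range x)).map (MvPolynomial.C : B →+* MvPolynomial (Fin c) B) := by
  classical
  rw [MvPolynomial.mem_map_C_iff]
  intro m₀
  by_cases hm₀ : m₀ ∈ g.support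
  swap
  · rw [MvPolynomial.notMem_support_iff.1 hm₀]
    exact Ideal.zero_mem _
  set d := ∑ i, a i * m₀ i with hd
  set s := g.support.filter fun m => ∑ i, a i * m i = d with hs
  obtain ⟨b, hb, hb'⟩ := coef x a hr ((d : ℤ) + 1)
  have h1 : (gm x a K g).coeff (d : ℤ) = (hm (-1) 1 * r).coeff (d : ℤ) := by rw [h]
  rw [coeff_hm_mul, one_mul, sub_neg_eq_add, ← hb', gm_eq, AddMonoidAlgebra.coeff_sum,
    Finsupp.finsetSum_apply] at h1
  simp_rw [coeff_hm] at h1
  rw [← Finset.sum_filter] at h1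
  have h2 : (g.support.filter fun m => ((∑ i, a i * m i : ℕ) : ℤ) = (d : ℤ)) = s := by
    rw [hs]
    refine Finset.filter_congr fun m _ => ?_
    exact Nat.cast_inj
  rw [h2, ← map_sum] at h1
  have h3 : ∑ m ∈ s, g.coeff m * ∏ i, x i ^ m i = b := hinj h1
  have h4 : b ∈ Ideal.span {y : B | ∃ m : Fin c →₀ ℕ, d + 1 ≤ ∑ i, a i * m i ∧
      y = ∏ i, x i ^ m i} := by
    refine Ideal.span_mono ?_ hb
    rintro y ⟨m, h5, h6⟩
    refine ⟨m, ?_, h6⟩
    exact_mod_cast h5
  exact Pool.Agent.Y484.G.t_WQR B c x hx a ha d s (fun m => g.coeff m)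
    (fun m hm => (Finset.mem_filter.1 hm).2) (by rw [h3]; exact h4) m₀
    (Finset.mem_filter.2 ⟨hm₀, rfl⟩)

theorem x_mem (ha : ∀ j, 0 < a j) {b : B} (hb : b ∈ Ideal.span (Set.range x)) :
    ∃ r ∈ RE x a K, algebraMap B (LP K) b = hm (-1) 1 * r := by
  induction hb using Submodule.span_induction with
  | mem y hy =>
    obtain ⟨j, rfl⟩ := hy
    refine ⟨hm (-1) 1 ^ (a j - 1) * hm (a j) (algebraMap B K (x j)), ?_, ?_⟩
    · exact Subalgebra.mul_mem _ (Subalgebra.pow_mem _ (t_mem x a) _)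
        (Algebra.subset_adjoin (Or.inr ⟨j, rfl⟩))
    · rw [← mul_assoc, ← pow_succ', Nat.sub_add_cancel (ha j), hm_pow, hm_mul, one_pow, one_mul,
        algebraMap_LP]
      congr 1
      ring
  | zero => exact ⟨0, Subalgebra.zero_mem _, by rw [map_zero, mul_zero]⟩
  | add y z _ _ hy hz =>
    obtain ⟨r1, h1, e1⟩ := hy
    obtain ⟨r2, h2, e2⟩ := hz
    exact ⟨r1 + r2, Subalgebra.add_mem _ h1 h2, by rw [map_add, e1, e2, mul_add]⟩
  | smul b y _ hy =>
    obtain ⟨r1, h1, e1⟩ := hy
    refine ⟨algebraMap B (LP K) b * r1, Subalgebra.mul_mem _ (Subalgebra.algebraMap_mem _ b) h1, ?_⟩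
    rw [smul_eq_mul, map_mul, e1, mul_left_comm]

/-- the parameter -/
noncomputable def tt (K : Type) [Field K] [Algebra B K] : RE x a K := ⟨hm (-1) 1, t_mem x a⟩

theorem noeth [IsNoetherianRing B] : IsNoetherianRing (RE x a K) := by
  have h1 : (RE x a K).FG :=
    Subalgebra.fg_def.2 ⟨_, (Set.finite_singleton _).union (Set.finite_range _), rfl⟩
  have h2 : Algebra.FiniteType B (RE x a K) := (Subalgebra.fg_iff_finiteType _).1 h1
  exact Algebra.FiniteType.isNoetherianRing B _

theorem main [IsRegularLocalRing B] (hinj : Function.Injective (algebraMap B K))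
    (hx : Ind x) (ha : ∀ j, 0 < a j) (Q : Ideal (RE x a K)) [Q.IsPrime]
    (ht : tt x a K ∈ Q) (hQ : ∀ b ∈ maximalIdeal B, algebraMap B (RE x a K) b ∈ Q) :
    IsRegularLocalRing (Localization.AtPrime Q) := by
  have hN := noeth (K := K) x a
  have ht0 : tt x a K ≠ 0 := by
    intro h
    have h1 : (hm (-1) 1 : LP K) = 0 := congrArg Subtype.val h
    exact hm_ne_zero one_ne_zero h1
  refine both B (RE x a K) (tt x a K) ht0 Q ht (Ideal.span (Set.range x)) hx.regular
    ((gm x a K).codRestrict (RE x a K) (gm_mem x a)).toRingHom ?_ ?_ ?_ ?_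
  · intro f
    obtain ⟨g, r, hr, e⟩ := gm_surj x a f.2
    exact ⟨g, ⟨r, hr⟩, Subtype.ext e⟩
  · intro g s hs
    exact ker_le x a hinj hx ha s.2 (congrArg Subtype.val hs)
  · intro b hb
    obtain ⟨r, hr, e⟩ := x_mem (K := K) x a ha hb
    exact ⟨⟨r, hr⟩, Subtype.ext (((gm x a K).commutes b).trans e)⟩
  · intro b hb
    have h1 : ((gm x a K).codRestrict (RE x a K) (gm_mem x a)).toRingHom (MvPolynomial.C b) =
        algebraMap B (RE x a K) b := Subtype.ext ((gm x a K).commutes b)
    rw [h1]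
    exact hQ b hb

end main

theorem t_WREG : Pool.Agent.Y223.G.S_WREG := by
  classical
  intro B K _ _ _ _ hinj ι _ x hx a ha R' hR' Q _ ht hQ
  let e := Fintype.equivFin ι
  have h1 : Ind (x ∘ e.symm) := hx.comp _ e.symm.injective
  have h2 : R' = RE (x ∘ e.symm) (a ∘ e.symm) K := by
    rw [hR']
    unfold RE
    congr 2
    exact (e.symm.surjective.range_comp fun j => hm (a j : ℤ) (algebraMap B K (x j))).symm
  subst h2
  exact main (x ∘ e.symm) (a ∘ e.symm) hinj h1 (fun j => ha _) Q (ht (t_mem _ _)) hQ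

end Pool.Agent.Y901.G
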